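import Mathlib
import Pool.Agent.Lib.MP_47d77c_pr.Neg
import Pool.Agent.Lib.MP_47d77c_pr.Poisson

/-!
Concavity of the escape speed in the rates, for every Coxeter system of finite rank.

The walk `Z_t` on the Coxeter group `W` jumps from `w` to `w * s_i` at rate `r i`.  Its law at
time `t` is described through its jump chain: the number of jumps up to time `t` is Poisson with
mean `(∑ i, r i) * t`, and each jump is right multiplication by `s_i` with probability
`r i / ∑ j, r j`, independently of the past.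
-/

namespace Pool.Agent.Results.MP_47d77c_pr.Concavity

open Filter Topology CoxeterSystem

variable {B W : Type*} [Fintype B] [Group W] {M : CoxeterMatrix B}

open scoped Classical in
/-- `jumpLaw cs r n x` is the probability that the jump chain of the walk, started at the
identity, is at `x` after `n` jumps.  A jump goes from `w` to `w * s_i` with probability
`r i / ∑ j, r j`; since `s_i` is an involution, the walk is at `x` after a jump along `s_i`
exactly when it was at `x * s_i` before it. -/
noncomputable def jumpLaw (cs : CoxeterSystem M W) (r : B → ℝ) : ℕ → W → ℝ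
  | 0, x => if x = 1 then 1 else 0
  | n + 1, x => ∑ i, (r i / ∑ j, r j) * jumpLaw cs r n (x * cs.simple i)

/-- `walkLaw cs r t x = P (Z_t = x)` for the continuous-time walk with rates `r` started at the
identity: a Poisson mixture, with mean `(∑ i, r i) * t`, of the laws of the jump chain. -/
noncomputable def walkLaw (cs : CoxeterSystem M W) (r : B → ℝ) (t : ℝ) (x : W) : ℝ :=
  ∑' n : ℕ, (Real.exp (-((∑ i, r i) * t)) * ((∑ i, r i) * t) ^ n / n.factorial) *
    jumpLaw cs r n x

/-- `meanDist cs r t = E |Z_t|`, the expected word length of the walk at time `t`. -/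
noncomputable def meanDist (cs : CoxeterSystem M W) (r : B → ℝ) (t : ℝ) : ℝ :=
  ∑' x : W, walkLaw cs r t x * cs.length x

/-- The escape speed `σ(r) = lim_{t → ∞} E |Z_t| / t`. -/
noncomputable def escapeSpeed (cs : CoxeterSystem M W) (r : B → ℝ) : ℝ :=
  limUnder atTop fun t : ℝ => meanDist cs r t / t

open MonoidAlgebra Pool.Agent.Lib.MP_47d77c_pr

theorem jumpLaw_eq (cs : CoxeterSystem M W) (r : B → ℝ) (n : ℕ) (x : W) :
    jumpLaw cs r n x = (mu cs.simple ((∑ i, r i)⁻¹ • r) ^ n).coeff x := by
  classical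
  induction n generalizing x with
  | zero =>
    rw [pow_zero, one_def, coeff_single, Finsupp.single_apply, jumpLaw]
    simp [eq_comm]
  | succ n ih =>
    have hmul : ∀ (a : MonoidAlgebra ℝ W) (p : B → ℝ),
        a * mu cs.simple p = ∑ i, a * single (cs.simple i) (p i) :=
      fun a p => by rw [mu, Finset.mul_sum]
    rw [pow_succ, jumpLaw, hmul, coeff_sum, Finsupp.finsetSum_apply]
    refine Finset.sum_congr rfl fun i _ => ?_
    rw [ih]
    have h := coeff_mul_single_apply (mu cs.simple ((∑ i, r i)⁻¹ • r) ^ n)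
      (((∑ i, r i)⁻¹ • r) i) (cs.simple i) x
    rw [h, inv_simple]
    simp only [Pi.smul_apply, smul_eq_mul]
    ring

theorem jumpLaw_nonneg (cs : CoxeterSystem M W) {r : B → ℝ} (hr : ∀ i, 0 < r i) (n : ℕ) (x : W) :
    0 ≤ jumpLaw cs r n x := by
  rw [jumpLaw_eq]
  refine (nonneg_mu cs.simple fun i => ?_).pow n x
  simp only [Pi.smul_apply, smul_eq_mul]
  exact mul_nonneg (inv_nonneg.2 (Finset.sum_nonneg fun i _ => (hr i).le)) (hr i).le

theorem hasSum_jumpLaw (cs : CoxeterSystem M W) (r : B → ℝ) (n : ℕ) :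
    HasSum (fun x => jumpLaw cs r n x * cs.length x)
      (ev (fun g : W => (cs.length g : ℝ)) (mu cs.simple ((∑ i, r i)⁻¹ • r) ^ n)) := by
  rw [ev_eq_sum]
  simp only [jumpLaw_eq]
  refine hasSum_sum_of_ne_finset_zero fun x hx => ?_
  rw [Finsupp.notMem_support_iff.1 hx, zero_mul]

theorem sum_normalized {r : B → ℝ} (hr : 0 < ∑ i, r i) : ∑ i, ((∑ i, r i)⁻¹ • r) i = 1 := by
  simp only [Pi.smul_apply, smul_eq_mul, ← Finset.mul_sum]
  exact inv_mul_cancel₀ hr.ne'

theorem nonneg_normalized {r : B → ℝ} (hr : ∀ i, 0 < r i) (i : B) :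
    0 ≤ ((∑ i, r i)⁻¹ • r) i := by
  simp only [Pi.smul_apply, smul_eq_mul]
  exact mul_nonneg (inv_nonneg.2 (Finset.sum_nonneg fun i _ => (hr i).le)) (hr i).le

theorem meanDist_eq (cs : CoxeterSystem M W) [Nonempty B] {r : B → ℝ} (hr : ∀ i, 0 < r i)
    {t : ℝ} (ht : 0 ≤ t) :
    meanDist cs r t = ∑' n, pw ((∑ i, r i) * t) n *
      ev (fun g : W => (cs.length g : ℝ)) (mu cs.simple ((∑ i, r i)⁻¹ • r) ^ n) := by
  have hR : 0 < ∑ i, r i := Finset.sum_pos (fun i _ => hr i) Finset.univ_nonempty
  set R := ∑ i, r i with hRdef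
  set m : ℕ → ℝ := fun n => ev (fun g : W => (cs.length g : ℝ)) (mu cs.simple (R⁻¹ • r) ^ n)
    with hm
  have hlen := isLen_length cs
  obtain ⟨v, hv⟩ := exists_speed (s := cs.simple) hlen (nonneg_normalized hr)
    (sum_normalized hR)
  obtain ⟨C, hC0, hC⟩ := linear_bound hv one_pos
  have hsm : Summable (fun n => pw (R * t) n * m n) :=
    (abs_tsum_sub_le (lam := R * t) (by positivity) hC).1
  set F : ℕ → W → ℝ := fun n x => pw (R * t) n * (jumpLaw cs r n x * cs.length x) with hF
  have hF0 : ∀ n x, 0 ≤ F n x := fun n x =>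
    mul_nonneg (pw_nonneg (by positivity) n)
      (mul_nonneg (jumpLaw_nonneg cs hr n x) (Nat.cast_nonneg _))
  have hrow : ∀ n, HasSum (F n) (pw (R * t) n * m n) := fun n =>
    (hasSum_jumpLaw cs r n).mul_left _
  have hsum : Summable (Function.uncurry F) := by
    refine (summable_prod_of_nonneg (fun x => hF0 x.1 x.2)).2 ⟨fun n => (hrow n).summable, ?_⟩
    refine hsm.congr fun n => ?_
    exact (hrow n).tsum_eq.symm
  have hcomm : ∑' x, ∑' n, F n x = ∑' n, ∑' x, F n x := hsum.tsum_comm
  rw [meanDist]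
  calc ∑' x, walkLaw cs r t x * cs.length x = ∑' x, ∑' n, F n x := by
        refine tsum_congr fun x => ?_
        rw [walkLaw, ← tsum_mul_right]
        refine tsum_congr fun n => ?_
        simp only [hF, pw]
        ring
    _ = ∑' n, ∑' x, F n x := hcomm
    _ = _ := tsum_congr fun n => (hrow n).tsum_eq

theorem tendsto_meanDist (cs : CoxeterSystem M W) [Nonempty B] {r : B → ℝ} (hr : ∀ i, 0 < r i) :
    ∃ v : ℝ, Tendsto (fun n : ℕ => ev (fun g : W => (cs.length g : ℝ))
      (mu cs.simple ((∑ i, r i)⁻¹ • r) ^ n) / n) atTop (𝓝 v) ∧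
      Tendsto (fun t : ℝ => meanDist cs r t / t) atTop (𝓝 ((∑ i, r i) * v)) := by
  have hR : 0 < ∑ i, r i := Finset.sum_pos (fun i _ => hr i) Finset.univ_nonempty
  obtain ⟨v, hv⟩ := exists_speed (s := cs.simple) (isLen_length cs) (nonneg_normalized hr)
    (sum_normalized hR)
  refine ⟨v, hv, ?_⟩
  refine (tendsto_poisson hR hv).congr' ?_
  filter_upwards [eventually_ge_atTop (0 : ℝ)] with t ht
  rw [meanDist_eq cs hr ht]

theorem tendsto_escapeSpeed (cs : CoxeterSystem M W) [Nonempty B] {r : B → ℝ}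
    (hr : ∀ i, 0 < r i) :
    Tendsto (fun t : ℝ => meanDist cs r t / t) atTop (𝓝 (escapeSpeed cs r)) := by
  obtain ⟨v, -, h⟩ := tendsto_meanDist cs hr
  exact tendsto_nhds_limUnder ⟨_, h⟩

theorem meanDist_of_isEmpty (cs : CoxeterSystem M W) [IsEmpty B] (r : B → ℝ) (t : ℝ) :
    meanDist cs r t = 0 := by
  have h : ∀ x : W, cs.length x = 0 := by
    intro x
    obtain ⟨ω, rfl⟩ := cs.wordProd_surjective x
    have : ω = [] := by
      cases ω with
      | nil => rfl
      | cons i ω => exact isEmptyElim i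
    rw [this]
    simp
  simp [meanDist, h]

/-- **Concavity of the escape speed.**  For every Coxeter system `(W, S)` with `S` finite, the
escape speed `σ(r) = lim E |Z_t| / t` exists for all positive rates and is a concave function of
the rates on `(0, ∞)^S`. -/
theorem result {B W : Type*} [Fintype B] [Group W] {M : CoxeterMatrix B}
    (cs : CoxeterSystem M W) :
    (∀ r : B → ℝ, (∀ i, 0 < r i) →
      Tendsto (fun t : ℝ => meanDist cs r t / t) atTop (𝓝 (escapeSpeed cs r))) ∧
    ConcaveOn ℝ {r : B → ℝ | ∀ i, 0 < r i} (escapeSpeed cs) := by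
  rcases isEmpty_or_nonempty B with hB | hB
  · have h0 : ∀ r : B → ℝ, Tendsto (fun t : ℝ => meanDist cs r t / t) atTop (𝓝 0) := by
      intro r
      simp [meanDist_of_isEmpty]
    have h1 : ∀ r : B → ℝ, escapeSpeed cs r = 0 := fun r => (h0 r).limUnder_eq
    refine ⟨fun r _ => ?_, ?_⟩
    · rw [h1 r]; exact h0 r
    · have : escapeSpeed cs = fun _ => (0 : ℝ) := funext h1
      rw [this]
      refine concaveOn_const 0 ?_
      intro x _ y _ a b _ _ _ i
      exact isEmptyElim i
  · refine ⟨fun r hr => tendsto_escapeSpeed cs hr, ?_⟩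
    refine concave_speed (s := cs.simple) (isLen_length cs) (condNeg_length cs)
      (fun i => cs.inv_simple i) (escapeSpeed cs) ?_
    intro r hr
    have hR : 0 < ∑ i, r i := Finset.sum_pos (fun i _ => hr i) Finset.univ_nonempty
    obtain ⟨v, hv, h⟩ := tendsto_meanDist cs hr
    have h2 : escapeSpeed cs r = (∑ i, r i) * v := h.limUnder_eq
    rw [h2, mul_div_cancel_left₀ _ hR.ne']
    exact hv

end Pool.Agent.Results.MP_47d77c_pr.Concavity
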